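import Pool.Agent.helper23.CO.SpecC

/-!
# Project co, row ERM
-/

set_option autoImplicit false

open Finset Filter Topology

namespace CO

open CU

theorem ERM_bool (a b c e : Bool) :
    (if (a ⊓ c) ≠ (b ⊓ e) then (1 : ℕ) else 0) + (if (a ⊔ c) ≠ (b ⊔ e) then 1 else 0) ≤
      (if a ≠ b then 1 else 0) + (if c ≠ e then 1 else 0) := by
  revert a b c e
  decide

theorem ERM_brk {d n : ℕ} [NeZero n] (σ τ : Conf d n) :
    (brk (σ ⊓ τ)).card + (brk (σ ⊔ τ)).card ≤ (brk σ).card + (brk τ).card := by
  unfold brk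
  simp only [Finset.card_filter]
  rw [← Finset.sum_add_distrib, ← Finset.sum_add_distrib]
  apply Finset.sum_le_sum
  intro e _
  exact ERM_bool (σ e.1) (σ (e.1 + ev e.2)) (τ e.1) (τ (e.1 + ev e.2))

theorem ERM_W {d n : ℕ} [NeZero n] (β : ℝ) (hβ : 0 ≤ β) (σ τ : Conf d n) :
    W β σ * W β τ ≤ W β (σ ⊓ τ) * W β (σ ⊔ τ) := by
  unfold W
  rw [← Real.exp_add, ← Real.exp_add, Real.exp_le_exp]
  have h : ((brk (σ ⊓ τ)).card : ℝ) + ((brk (σ ⊔ τ)).card : ℝ) ≤
      ((brk σ).card : ℝ) + ((brk τ).card : ℝ) := by exact_mod_cast ERM_brk σ τ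
  nlinarith [mul_le_mul_of_nonneg_left h hβ]

theorem ERM : ERM_stmt := by
  intro d n _ β S f hβ hf σ τ hστ
  have hWp : ∀ η : Conf d n, 0 < W β η := fun η => Real.exp_pos _
  have hne : ∀ ω : Conf d n, ω ∈ fo S ω := fun ω => by simp [fo]
  have hZp : ∀ ω : Conf d n, 0 < ∑ η ∈ fo S ω, W β η := fun ω =>
    Finset.sum_pos (fun η _ => hWp η) ⟨ω, hne ω⟩
  set Z := ∑ η ∈ fo S σ, W β η with hZ
  set Z' := ∑ η ∈ fo S τ, W β η with hZ'
  set c := f ⊥ with hc
  set F : Conf d n → ℝ := fun η => if η ∈ fo S σ then W β η / Z else 0 with hF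
  set G : Conf d n → ℝ := fun η => if η ∈ fo S τ then W β η / Z' else 0 with hG
  have hF0 : ∀ η, 0 ≤ F η := by
    intro η
    simp only [hF]
    split_ifs
    · exact div_nonneg (hWp η).le (hZp σ).le
    · exact le_rfl
  have hG0 : ∀ η, 0 ≤ G η := by
    intro η
    simp only [hG]
    split_ifs
    · exact div_nonneg (hWp η).le (hZp τ).le
    · exact le_rfl
  have hFs : ∑ η, F η = 1 := by
    simp only [hF]
    rw [← Finset.sum_filter, Finset.filter_mem_eq_inter, Finset.univ_inter, ← Finset.sum_div,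
      div_self (hZp σ).ne']
  have hGs : ∑ η, G η = 1 := by
    simp only [hG]
    rw [← Finset.sum_filter, Finset.filter_mem_eq_inter, Finset.univ_inter, ← Finset.sum_div,
      div_self (hZp τ).ne']
  have key := holley (α := Conf d n) (μ := fun η => f η - c) (f := F) (g := G)
    (fun η => sub_nonneg.2 (hf bot_le)) hF0 hG0
    (fun a b hab => sub_le_sub_right (hf hab) c)
    (by rw [hFs, hGs])
    (by
      intro a b
      by_cases ha : a ∈ fo S σ
      · by_cases hb : b ∈ fo S τ
        · have hi : a ⊓ b ∈ fo S σ := by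
            simp only [fo, mem_filter, mem_univ, true_and] at ha hb ⊢
            intro x hx
            rw [Pi.inf_apply, ha x hx, hb x hx]
            exact inf_eq_left.2 (hστ x)
          have hs : a ⊔ b ∈ fo S τ := by
            simp only [fo, mem_filter, mem_univ, true_and] at ha hb ⊢
            intro x hx
            rw [Pi.sup_apply, ha x hx, hb x hx]
            exact sup_eq_right.2 (hστ x)
          simp only [hF, hG, if_pos ha, if_pos hb, if_pos hi, if_pos hs]
          rw [div_mul_div_comm, div_mul_div_comm]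
          exact div_le_div_of_nonneg_right (ERM_W β hβ a b) (mul_pos (hZp σ) (hZp τ)).le
        · have : G b = 0 := by simp only [hG, if_neg hb]
          rw [this, mul_zero]
          exact mul_nonneg (hF0 _) (hG0 _)
      · have : F a = 0 := by simp only [hF, if_neg ha]
        rw [this, zero_mul]
        exact mul_nonneg (hF0 _) (hG0 _))
  have e1 : ER β S f σ = ∑ η, (f η - c) * F η + c := by
    have h1 : ∑ η, (f η - c) * F η = ∑ η, f η * F η - c := by
      simp only [sub_mul]
      rw [Finset.sum_sub_distrib, ← Finset.mul_sum, hFs, mul_one]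
    rw [h1]
    unfold ER
    rw [← hZ]
    have h2 : ∑ η, f η * F η = (∑ η ∈ fo S σ, W β η * f η) / Z := by
      simp only [hF, mul_ite, mul_zero]
      rw [← Finset.sum_filter, Finset.filter_mem_eq_inter, Finset.univ_inter, Finset.sum_div]
      exact Finset.sum_congr rfl fun η _ => by ring
    rw [h2]; ring
  have e2 : ER β S f τ = ∑ η, (f η - c) * G η + c := by
    have h1 : ∑ η, (f η - c) * G η = ∑ η, f η * G η - c := by
      simp only [sub_mul]
      rw [Finset.sum_sub_distrib, ← Finset.mul_sum, hGs, mul_one]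
    rw [h1]
    unfold ER
    rw [← hZ']
    have h2 : ∑ η, f η * G η = (∑ η ∈ fo S τ, W β η * f η) / Z' := by
      simp only [hG, mul_ite, mul_zero]
      rw [← Finset.sum_filter, Finset.filter_mem_eq_inter, Finset.univ_inter, Finset.sum_div]
      exact Finset.sum_congr rfl fun η _ => by ring
    rw [h2]; ring
  rw [e1, e2]
  exact add_le_add_left key c

end CO
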